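import Mathlib
import Pool.Agent.X172.GR.Stm

/-! Part GR_COM of the joint project GR (statement by helper172). -/

set_option autoImplicit false

namespace Pool.Agent.X107.GR.COM

open Pool.Agent.X172.GR

theorem rd_get {T : ℕ → Fin 6} : ∀ (w : List Ltr) (i : ℕ), Rd T i w →
    ∀ (j : ℕ) (a : Ltr), w[j]? = some a → a.1 = T (i + j)
  | [], _, _, j, a, h => by simp at h
  | b :: w, i, hr, 0, a, h => by
      simp only [List.getElem?_cons_zero, Option.some.injEq] at h
      subst h
      exact hr.1
  | b :: w, i, hr, j + 1, a, h => by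
      simp only [List.getElem?_cons_succ] at h
      have := rd_get w (i + 1) hr.2 j a h
      rw [this]; congr 1; ring

theorem rd_of_get {T : ℕ → Fin 6} : ∀ (w : List Ltr) (i : ℕ),
    (∀ (j : ℕ) (a : Ltr), w[j]? = some a → a.1 = T (i + j)) → Rd T i w
  | [], _, _ => trivial
  | b :: w, i, h => by
      refine ⟨h 0 b (by simp), rd_of_get w (i + 1) ?_⟩
      intro j a hj
      have := h (j + 1) a (by simpa using hj)
      rw [this]; congr 1; ring

theorem readable_prefix {T : ℕ → Fin 6} {p u : List Ltr} (h : p <+: u) (hu : Readable T u) :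
    Readable T p := by
  obtain ⟨i, hi⟩ := hu
  obtain ⟨r, rfl⟩ := h
  refine ⟨i, rd_of_get _ _ fun j a hj => rd_get _ _ hi j a ?_⟩
  have hlt : j < p.length := by
    by_contra hc
    rw [List.getElem?_eq_none (by omega)] at hj
    exact absurd hj (by simp)
  rw [List.getElem?_append_left hlt]; exact hj

theorem readable_suffix {T : ℕ → Fin 6} {q u : List Ltr} (h : q <:+ u) (hu : Readable T u) :
    Readable T q := by
  obtain ⟨i, hi⟩ := hu
  obtain ⟨r, rfl⟩ := h
  refine ⟨i + r.length, rd_of_get _ _ fun j a hj => ?_⟩
  have := rd_get _ _ hi (r.length + j) a (by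
    rw [List.getElem?_append_right (by omega)]
    simpa using hj)
  rw [this]; congr 1; ring

/-- the common prefix -/
theorem pre_info {n : ℕ} {T : ℕ → Fin 6} {s t : List Ltr} (hs : Readable T s) (ht : Readable T t)
    (h : LE n T (s ++ t ++ [(5, false)]) (t ++ s ++ [(5, false)])) :
    ∃ c, (c = n ∨ (s.length < c ∧ t.length < c)) ∧ ∀ j, j < c → (s ++ t)[j]? = (t ++ s)[j]? := by
  have key : ∃ c, (c = n ∨ (s.length < c ∧ t.length < c)) ∧ ∀ j, j < c →
      (s ++ t ++ [(5, false)])[j]? = (t ++ s ++ [(5, false)] : List Ltr)[j]? := by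
    rcases h with h | ⟨p, hp1, hp2, hp3⟩
    · refine ⟨s.length + t.length + 1, Or.inr ⟨by omega, by omega⟩, fun j _ => by rw [h]⟩
    · refine ⟨p.length, ?_, ?_⟩
      · rcases hp3 with hp3 | hp3
        · right
          constructor
          · by_contra hc
            exact hp3 (readable_prefix (List.prefix_of_prefix_length_le hp1
              (by rw [List.append_assoc]; exact List.prefix_append _ _) (by omega)) hs)
          · by_contra hc
            exact hp3 (readable_prefix (List.prefix_of_prefix_length_le hp2
              (by rw [List.append_assoc]; exact List.prefix_append _ _) (by omega)) ht)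
        · left; exact hp3
      · intro j hj
        obtain ⟨r1, h1⟩ := hp1
        obtain ⟨r2, h2⟩ := hp2
        rw [← h1, ← h2, List.getElem?_append_left hj, List.getElem?_append_left hj]
  obtain ⟨c, hc, hj⟩ := key
  refine ⟨c, hc, fun j hjc => ?_⟩
  by_cases hL : j < s.length + t.length
  · have := hj j hjc
    rwa [List.getElem?_append_left (l₁ := s ++ t) (by simpa using hL),
      List.getElem?_append_left (l₁ := t ++ s) (by simp; omega)] at this
  · rw [List.getElem?_eq_none (by simp; omega), List.getElem?_eq_none (by simp; omega)]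

theorem suf_suffix {n : ℕ} {T : ℕ → Fin 6} {w : List Ltr} {h : Option Ltr} {m : ℕ} {z : List Ltr}
    (hS : Suf n T w h m z) : z <:+ w ∧ z.length = n := by
  obtain ⟨v, -, -, -, hz, hzl, hh⟩ := hS
  refine ⟨?_, hzl⟩
  rcases hh with ⟨-, rfl⟩ | ⟨a, y, -, rfl, -⟩
  · exact hz
  · refine hz.trans ?_
    exact (List.suffix_cons a v).trans (List.suffix_append y (a :: v))

theorem suf_mem {n : ℕ} {T : ℕ → Fin 6} {w : List Ltr} {a : Ltr} {m : ℕ} {z : List Ltr}
    (hS : Suf n T w (some a) m z) : a ∈ w := by
  obtain ⟨v, -, -, -, hz, hzl, hh⟩ := hS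
  rcases hh with ⟨h, -⟩ | ⟨b, y, hb, rfl, -⟩
  · exact absurd h (by simp)
  · simp only [Option.some.injEq] at hb
    subst hb
    simp

theorem not_mem_five {n : ℕ} {T : ℕ → Fin 6} (hT : Ty n T) {s : List Ltr} (hs : Readable T s)
    (b : Bool) : ((5, b) : Ltr) ∉ s := by
  intro hm
  obtain ⟨i, hi⟩ := hs
  obtain ⟨j, hj⟩ := List.getElem?_of_mem hm
  have := rd_get _ _ hi j _ hj
  exact hT.ne5 (i + j) this.symm

/-- common suffixes by index -/
theorem suffix_get {q u w : List Ltr} (h1 : q <:+ u) (h2 : q <:+ w) (hl : u.length = w.length)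
    (j : ℕ) (hj : u.length ≤ j + q.length) : u[j]? = w[j]? := by
  obtain ⟨a, rfl⟩ := h1
  obtain ⟨b, rfl⟩ := h2
  simp only [List.length_append] at hl hj
  rw [List.getElem?_append_right (by omega), List.getElem?_append_right (by omega)]
  congr 1
  omega

theorem suf_info {n : ℕ} {T : ℕ → Fin 6} (hT : Ty n T) {s t : List Ltr} (hs : Readable T s)
    (ht : Readable T t) (h : RE n T ((5, false) :: (s ++ t)) ((5, false) :: (t ++ s))) :
    ∃ c, (c = n ∨ (s.length < c ∧ t.length < c)) ∧
      ∀ j, s.length + t.length ≤ j + c → (s ++ t)[j]? = (t ++ s)[j]? := by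
  have key : ∃ c, (c = n ∨ (s.length < c ∧ t.length < c)) ∧
      ∀ j, s.length + t.length + 1 ≤ j + c →
        ((5, false) :: (s ++ t) : List Ltr)[j]? = ((5, false) :: (t ++ s) : List Ltr)[j]? := by
    rcases h with h | ⟨q, hq1, hq2, hq3⟩ | ⟨h, m, z, z', hS, hS', hZ⟩
    · exact ⟨s.length + t.length + 1, Or.inr ⟨by omega, by omega⟩, fun j _ => by rw [h]⟩
    · refine ⟨q.length, Or.inr ⟨?_, ?_⟩, fun j hj => ?_⟩
      · by_contra hc
        exact hq3 (readable_suffix (List.suffix_of_suffix_length_le hq2
          ((List.suffix_append t s).trans (List.suffix_cons _ _)) (by omega)) hs)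
      · by_contra hc
        exact hq3 (readable_suffix (List.suffix_of_suffix_length_le hq1
          ((List.suffix_append s t).trans (List.suffix_cons _ _)) (by omega)) ht)
      · exact suffix_get hq1 hq2 (by simp; omega) j (by simp; omega)
    · have hzz : z = z' := by
        rcases hZ with hZ | ⟨hh, -⟩
        · exact hZ
        · exfalso
          subst hh
          have := suf_mem hS
          simp only [List.mem_cons, List.mem_append, Prod.mk.injEq, Bool.true_eq_false, and_false,
            false_or] at this
          rcases this with h | h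
          · exact not_mem_five hT hs _ h
          · exact not_mem_five hT ht _ h
      subst hzz
      obtain ⟨h1, hl⟩ := suf_suffix hS
      obtain ⟨h2, -⟩ := suf_suffix hS'
      refine ⟨n, Or.inl rfl, fun j hj => ?_⟩
      exact suffix_get h1 h2 (by simp; omega) j (by simp; omega)
  obtain ⟨c, hc, hj⟩ := key
  refine ⟨c, hc, fun j hjc => ?_⟩
  have := hj (j + 1) (by omega)
  simpa using this

/-- the index modulo `n` is determined by `n` types -/
theorem index_unique {n : ℕ} {T : ℕ → Fin 6} (hn : 4 ≤ n) (hT : Ty n T) {a b : ℕ}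
    (h : ∀ j, j < n → T (a + j) = T (b + j)) : a ≡ b [MOD n] := by
  -- choose j < n with n ∣ a + j + 1
  have hpos : 0 < n := by omega
  set j := (n - 1 - a % n) with hj
  have hm : a % n < n := Nat.mod_lt _ hpos
  have hd : n ∣ a + j + 1 := by
    have : a + j + 1 = n * (a / n) + n := by
      have := Nat.div_add_mod a n
      omega
    rw [this]
    exact Dvd.dvd.add (Dvd.intro _ rfl) (dvd_refl _)
  have h4 : T (a + j) = 4 := (hT.hash _).2 hd
  have h4' : T (b + j) = 4 := by rw [← h j (by omega)]; exact h4
  have hd' : n ∣ b + j + 1 := (hT.hash _).1 h4'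
  have : a + (j + 1) ≡ b + (j + 1) [MOD n] := by
    have h1 : a + (j + 1) ≡ 0 [MOD n] := (Nat.modEq_zero_iff_dvd).2 (by simpa [add_assoc] using hd)
    have h2 : b + (j + 1) ≡ 0 [MOD n] := (Nat.modEq_zero_iff_dvd).2 (by simpa [add_assoc] using hd')
    exact h1.trans h2.symm
  exact Nat.ModEq.add_right_cancel' _ this

/-- the conclusion in a symmetric form -/
def C (n : ℕ) (s t : List Ltr) : Prop :=
  s = t ∨ ((∃ p, p <+: s ∧ p <+: t ∧ p.length = n) ∧ (∃ z, z <:+ s ∧ z <:+ t ∧ z.length = n) ∧
    s.length % n = t.length % n ∧ n ≤ s.length ∧ n ≤ t.length)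

theorem C_symm {n : ℕ} {s t : List Ltr} (h : C n s t) : C n t s := by
  rcases h with h | ⟨⟨p, h1, h2, h3⟩, ⟨z, h4, h5, h6⟩, h7, h8, h9⟩
  · exact Or.inl h.symm
  · exact Or.inr ⟨⟨p, h2, h1, h3⟩, ⟨z, h5, h4, h6⟩, h7.symm, h9, h8⟩

theorem E_of_C {n : ℕ} {T : ℕ → Fin 6} {s t : List Ltr} (hs : Readable T s) (ht : Readable T t)
    (h : C n s t) : E n T s t := by
  rcases h with h | ⟨⟨p, h1, h2, h3⟩, ⟨z, h4, h5, h6⟩, h7, h8, h9⟩
  · subst h; exact ⟨Or.inl rfl, Or.inl rfl⟩
  · refine ⟨Or.inr ⟨p, h1, h2, Or.inr h3⟩, Or.inr (Or.inr ⟨none, s.length % n, z, z, ?_, ?_,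
      Or.inl rfl⟩)⟩
    · exact ⟨s, hs, h8, rfl, h4, h6, Or.inl ⟨rfl, rfl⟩⟩
    · exact ⟨t, ht, h9, h7.symm, h5, h6, Or.inl ⟨rfl, rfl⟩⟩

theorem core {n : ℕ} {T : ℕ → Fin 6} (hn : 4 ≤ n) (hT : Ty n T) {s t : List Ltr} (hs0 : s ≠ [])
    (hs : Readable T s) (ht : Readable T t) (hst : s.length ≤ t.length)
    {c1 c2 : ℕ} (hc1 : c1 = n ∨ (s.length < c1 ∧ t.length < c1))
    (hc2 : c2 = n ∨ (s.length < c2 ∧ t.length < c2))
    (hP : ∀ j, j < c1 → (s ++ t)[j]? = (t ++ s)[j]?)
    (hS : ∀ j, s.length + t.length ≤ j + c2 → (s ++ t)[j]? = (t ++ s)[j]?) : C n s t := by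
  have hspos : 0 < s.length := List.length_pos_iff.2 hs0
  obtain ⟨i', hi'⟩ := hs
  obtain ⟨i, hi⟩ := ht
  have gs := rd_get _ _ hi'
  have gt := rd_get _ _ hi
  -- types of letters
  have tt : ∀ a b, a < t.length → b < t.length → t[a]? = t[b]? → T (i + a) = T (i + b) := by
    intro a b ha hb hab
    have h1 := gt a _ (List.getElem?_eq_getElem ha)
    have h2 := gt b _ (List.getElem?_eq_getElem hb)
    rw [List.getElem?_eq_getElem ha, List.getElem?_eq_getElem hb, Option.some.injEq] at hab
    rw [← h1, ← h2, hab]
  have ts : ∀ a b, a < s.length → b < t.length → s[a]? = t[b]? → T (i' + a) = T (i + b) := by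
    intro a b ha hb hab
    have h1 := gs a _ (List.getElem?_eq_getElem ha)
    have h2 := gt b _ (List.getElem?_eq_getElem hb)
    rw [List.getElem?_eq_getElem ha, List.getElem?_eq_getElem hb, Option.some.injEq] at hab
    rw [← h1, ← h2, hab]
  have L1 : ∀ j, j < s.length → (s ++ t)[j]? = s[j]? := fun j h => List.getElem?_append_left h
  have L2 : ∀ j, (s ++ t)[s.length + j]? = t[j]? := fun j => by
    rw [List.getElem?_append_right (by omega)]; congr 1; omega
  have R1 : ∀ j, j < t.length → (t ++ s)[j]? = t[j]? := fun j h => List.getElem?_append_left h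
  have R2 : ∀ j, (t ++ s)[t.length + j]? = s[j]? := fun j => by
    rw [List.getElem?_append_right (by omega)]; congr 1; omega
  by_cases htn : t.length < n
  · -- case A
    left
    have hc1' : t.length < c1 := by rcases hc1 with h | h <;> omega
    have hc2' : t.length < c2 := by rcases hc2 with h | h <;> omega
    have heq : ∀ j, (s ++ t)[j]? = (t ++ s)[j]? := fun j => by
      by_cases hj : j < c1
      · exact hP j hj
      · exact hS j (by omega)
    have hcomm : s ++ t = t ++ s := List.ext_getElem? heq
    rcases Nat.lt_or_ge s.length t.length with hlt | hge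
    · exfalso
      -- t[j] = t[j + p1] for j + p1 < |t|
      have E1 : ∀ j, s.length + j < t.length → T (i + j) = T (i + (s.length + j)) := by
        intro j hj
        apply tt j (s.length + j) (by omega) hj
        rw [← L2 j, heq, R1 _ hj]
      have E2 : ∀ j, j < s.length → T (i + j) = T (i + (t.length - s.length + j)) := by
        intro j hj
        apply tt j _ (by omega) (by omega)
        rw [← R1 j (by omega), ← heq, L1 j hj, ← R2 j, ← heq, ← L2]
        congr 1
        omega
      by_cases hpp : s.length ≤ t.length - s.length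
      · obtain ⟨j, hj, hne⟩ := hT.sqf i s.length hspos
          (fun hd => absurd (Nat.le_of_dvd hspos hd) (by omega))
        apply hne
        rw [E1 j (by omega)]; congr 1; ring
      · obtain ⟨j, hj, hne⟩ := hT.sqf i (t.length - s.length) (by omega)
          (fun hd => absurd (Nat.le_of_dvd (by omega) hd) (by omega))
        apply hne
        rw [E2 j (by omega)]; congr 1; ring
    · exact (List.append_inj hcomm (by omega)).1
  · have htn' : n ≤ t.length := by omega
    have hc2' : n ≤ c2 := by rcases hc2 with h | h <;> omega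
    by_cases hsn : s.length < n
    · -- case B2
      exfalso
      have hmpos : 0 < n - s.length := by omega
      obtain ⟨j, hj, hne⟩ := hT.sqf (i + (t.length - (n - s.length))) (n - s.length) hmpos
        (fun hd => absurd (Nat.le_of_dvd hmpos hd) (by omega))
      apply hne
      have h1 : t[t.length - n + j]? = t[t.length - (n - s.length) + j]? := by
        rw [← L2, hS _ (by omega), ← R1 (t.length - (n - s.length) + j) (by omega)]
        congr 1
        omega
      have h2 := tt _ _ (by omega) (by omega) h1
      have h3 : i + (t.length - (n - s.length)) + (n - s.length) + j =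
          i + (t.length - n + j) + n := by omega
      rw [h3, hT.per, h2]; congr 1; ring
    · -- case B1
      have hsn' : n ≤ s.length := by omega
      have hc1' : n ≤ c1 := by rcases hc1 with h | h <;> omega
      have hpre : ∀ j, j < n → s[j]? = t[j]? := fun j hj => by
        rw [← L1 j (by omega), hP j (by omega), R1 j (by omega)]
      have hsuf : ∀ j, j < n → s[s.length - n + j]? = t[t.length - n + j]? := fun j hj => by
        rw [← R2, ← L2, ← hS _ (by omega)]
        congr 1
        omega
      right
      refine ⟨⟨s.take n, List.take_prefix _ _, ?_, by simp; omega⟩,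
        ⟨s.drop (s.length - n), List.drop_suffix _ _, ?_, by simp; omega⟩, ?_, hsn', htn'⟩
      · have : s.take n = t.take n := by
          apply List.ext_getElem?
          intro j
          by_cases hj : j < n
          · rw [List.getElem?_take_of_lt hj, List.getElem?_take_of_lt hj, hpre j hj]
          · rw [List.getElem?_eq_none (by simp; omega), List.getElem?_eq_none (by simp; omega)]
        rw [this]; exact List.take_prefix _ _
      · have : s.drop (s.length - n) = t.drop (t.length - n) := by
          apply List.ext_getElem?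
          intro j
          by_cases hj : j < n
          · rw [List.getElem?_drop, List.getElem?_drop, hsuf j hj]
          · rw [List.getElem?_eq_none (by simp; omega), List.getElem?_eq_none (by simp; omega)]
        rw [this]; exact List.drop_suffix _ _
      · have h1 : i' ≡ i [MOD n] := index_unique hn hT fun j hj =>
          ts j j (by omega) (by omega) (hpre j hj)
        have h2 : i' + (s.length - n) ≡ i + (t.length - n) [MOD n] := index_unique hn hT
          fun j hj => by
            have := ts _ _ (by omega) (by omega) (hsuf j hj)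
            rw [add_assoc, this, add_assoc]
        have h3 : s.length - n ≡ t.length - n [MOD n] := Nat.ModEq.add_left_cancel h1 h2
        have h4 : s.length - n + n ≡ t.length - n + n [MOD n] := Nat.ModEq.add_right n h3
        rw [Nat.sub_add_cancel hsn', Nat.sub_add_cancel htn'] at h4
        exact h4

theorem t : S_COM := by
  intro n T hn hT s t hs0 ht0 hs ht hL hR
  obtain ⟨c1, hc1, hP⟩ := pre_info hs ht hL
  obtain ⟨c2, hc2, hS⟩ := suf_info hT hs ht hR
  apply E_of_C hs ht
  rcases le_total s.length t.length with h | h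
  · exact core hn hT hs0 hs ht h hc1 hc2 hP hS
  · exact C_symm (core hn hT ht0 ht hs h (hc1.imp_right And.symm) (hc2.imp_right And.symm)
      (fun j hj => (hP j hj).symm) (fun j hj => (hS j (by omega)).symm))

end Pool.Agent.X107.GR.COM
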